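import Pool.Agent.Results.MP_1cfa3b_gt.TwoEnds

/-!
# Antipodal rays in spaces with a consistent conical bicombing

The boundary of a coarsely homogeneous proper space with a ccc bicombing never consists of exactly
one point.
-/

set_option autoImplicit false

namespace Pool.Agent.Results.MP_1cfa3b_gt.AntipodalRays

open Set Filter Topology
open scoped NNReal
open Pool.Agent.Results.MP_1cfa3b_gt.TwoEnds

universe u v

variable {X : Type u} [MetricSpace X]

/-- There are almost aligned triples `a, m, c` with `m` in a bounded set and `a`, `c` arbitrarily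
far away from `m`. -/
def LongTriples (X : Type u) [MetricSpace X] : Prop :=
  ∃ (x₀ : X) (R C : ℝ), ∀ n : ℕ, ∃ a m c : X, dist m x₀ ≤ R ∧ (n : ℝ) ≤ dist m a ∧
    (n : ℝ) ≤ dist m c ∧ dist m a + dist m c ≤ dist a c + C

/-- There are two `b`-rays `ξ`, `η` with the same origin and with `d (ξ t) (η t) ≥ 2 t - C` for
some constant `C` and all `t`. -/
def HasAntipodalRays (b : X → X → unitInterval → X) : Prop :=
  ∃ (ξ η : ℝ≥0 → X) (C : ℝ), IsRay b ξ ∧ IsRay b η ∧ ξ 0 = η 0 ∧
    ∀ t : ℝ≥0, 2 * (t : ℝ) - C ≤ dist (ξ t) (η t)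

/-- `X` is coarsely homogeneous: there are a point `x₀` and constants `R`, `C` such that every point
of `X` is mapped into the ball `B(x₀, R)` by some (not necessarily continuous) map `f : X → X` that
changes distances by at most `C`. -/
def CoarselyHomogeneous (X : Type u) [MetricSpace X] : Prop :=
  ∃ (x₀ : X) (R C : ℝ), ∀ x : X, ∃ f : X → X, dist (f x) x₀ ≤ R ∧
    ∀ y z : X, |dist (f y) (f z) - dist y z| ≤ C

theorem antipodal_of_triples [ProperSpace X] {b : X → X → unitInterval → X}
    (hb : IsCCCBicombing b) (h : LongTriples X) : HasAntipodalRays b := by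
  obtain ⟨x₀, R, C, key⟩ := h
  choose a m c hm ha hc hac using key
  let U : Ultrafilter ℕ := hyperfilter ℕ
  have hU : (U : Filter ℕ) ≤ atTop := Nat.hyperfilter_le_atTop
  have hmlim : ∃ x : X, Tendsto m U (𝓝 x) := by
    have hle : ((U.map m : Ultrafilter X) : Filter X) ≤ 𝓟 (Metric.closedBall x₀ R) := by
      rw [le_principal_iff]
      exact Filter.mem_map.2 (Filter.univ_mem' fun n => hm n)
    obtain ⟨q, -, hq⟩ := (isCompact_closedBall x₀ R).ultrafilter_le_nhds (U.map m) hle
    exact ⟨q, hq⟩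
  obtain ⟨x, hx⟩ := hmlim
  have hxm : Tendsto (fun n => dist x (m n)) U (𝓝 0) := by
    have := (tendsto_const_nhds (x := x)).dist hx
    rwa [dist_self] at this
  have far : ∀ y : ℕ → X, (∀ n : ℕ, (n : ℝ) ≤ dist (m n) (y n)) →
      Tendsto (fun n => dist x (y n)) U atTop := by
    intro y hy
    have h1 : Tendsto (fun n : ℕ => (n : ℝ) + (-dist x (m n))) U atTop :=
      (tendsto_natCast_atTop_atTop.mono_left hU).atTop_add hxm.neg
    refine tendsto_atTop_mono (fun n => ?_) h1
    have h2 := dist_triangle (m n) x (y n)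
    rw [dist_comm (m n) x] at h2
    linarith [hy n]
  obtain ⟨ξ, hξ, hξ0, hξlim⟩ := exists_ray hb U x a (far a ha)
  obtain ⟨η, hη, hη0, hηlim⟩ := exists_ray hb U x c (far c hc)
  refine ⟨ξ, η, C, hξ, hη, hξ0.trans hη0.symm, fun t => ?_⟩
  have hpq := (hξlim t).dist (hηlim t)
  have hsum := hpq.add (hxm.const_mul 2)
  rw [mul_zero, add_zero] at hsum
  refine ge_of_tendsto hsum ?_
  filter_upwards [(far a ha).eventually (eventually_ge_atTop ((t : ℝ) + 1)),
    (far c hc).eventually (eventually_ge_atTop ((t : ℝ) + 1))] with n hn1 hn2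
  have aux : ∀ y : X, (t : ℝ) + 1 ≤ dist x y →
      dist (b x y (Set.projIcc (0 : ℝ) 1 zero_le_one ((t : ℝ) / dist x y))) y
        = dist x y - t := by
    intro y hy
    have ht0 : (0 : ℝ) ≤ t := t.2
    have hpos : 0 < dist x y := by linarith
    have hmem : (t : ℝ) / dist x y ∈ Icc (0 : ℝ) 1 := by
      constructor
      · positivity
      · rw [div_le_one hpos]; linarith
    rw [Set.projIcc_of_mem zero_le_one hmem]
    have := hb.speed x y ⟨_, hmem⟩ 1
    rw [hb.one] at this
    rw [this]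
    simp only [Set.Icc.coe_one]
    rw [abs_sub_comm, abs_of_nonneg (by
      rw [sub_nonneg, div_le_one hpos]; linarith)]
    field_simp
  have t1 := dist_triangle4 (a n)
    (b x (a n) (Set.projIcc (0 : ℝ) 1 zero_le_one ((t : ℝ) / dist x (a n))))
    (b x (c n) (Set.projIcc (0 : ℝ) 1 zero_le_one ((t : ℝ) / dist x (c n)))) (c n)
  rw [dist_comm (a n) (b x (a n) _), aux _ hn1, aux _ hn2] at t1
  have t2 := dist_triangle x (m n) (a n)
  have t3 := dist_triangle x (m n) (c n)
  have t4 := hac n
  linarith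

theorem triples_of_antipodal {b : X → X → unitInterval → X} (h : HasAntipodalRays b) :
    LongTriples X := by
  obtain ⟨ξ, η, C, hξ, hη, h0, hC⟩ := h
  refine ⟨ξ 0, 0, C, fun n => ⟨ξ n, ξ 0, η n, by simp, ?_, ?_, ?_⟩⟩
  · rw [hξ.1]; simp
  · rw [h0, hη.1]; simp
  · have h1 := hC n
    have h2 : dist (ξ 0) (ξ n) = n := by rw [hξ.1]; simp
    have h3 : dist (ξ 0) (η n) = n := by rw [h0, hη.1]; simp
    rw [h2, h3]
    push_cast at h1
    linarith

theorem nontrivial_of_antipodal {b : X → X → unitInterval → X} (h : HasAntipodalRays b) :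
    Nontrivial (Boundary b) := by
  obtain ⟨ξ, η, C, hξ, hη, -, hC⟩ := h
  refine ⟨⟨Quotient.mk'' ⟨ξ, hξ⟩, Quotient.mk'' ⟨η, hη⟩, fun heq => ?_⟩⟩
  obtain ⟨D, hD⟩ : ∃ D : ℝ, ∀ t : ℝ≥0, dist (ξ t) (η t) ≤ D := Quotient.exact' heq
  have h1 := hC (Real.toNNReal (|C| + |D| + 1))
  have h2 := hD (Real.toNNReal (|C| + |D| + 1))
  rw [Real.coe_toNNReal _ (by positivity)] at h1
  have h3 := le_abs_self C
  have h4 := le_abs_self D
  have h5 := abs_nonneg C
  have h6 := abs_nonneg D
  linarith

theorem triples_of_homogeneous [ProperSpace X] {b : X → X → unitInterval → X}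
    (hb : IsCCCBicombing b) (h : CoarselyHomogeneous X) (hX : ¬ CompactSpace X) :
    LongTriples X := by
  obtain ⟨x₀, R, C, hR⟩ := h
  have hfar : ∀ r : ℝ, ∃ y : X, r ≤ dist x₀ y := by
    intro r
    by_contra hcon
    push Not at hcon
    apply hX
    have : (univ : Set X) ⊆ Metric.closedBall x₀ r := by
      intro y _
      rw [Metric.mem_closedBall, dist_comm]
      exact (hcon y).le
    exact ⟨(isCompact_closedBall x₀ r).of_isClosed_subset isClosed_univ this⟩
  refine ⟨x₀, R, 3 * C, fun n => ?_⟩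
  obtain ⟨y, hy⟩ := hfar (2 * (n + C))
  have hhalf : (1 / 2 : ℝ) ∈ unitInterval := by constructor <;> norm_num
  obtain ⟨f, hf, hfd⟩ := hR (b x₀ y ⟨1 / 2, hhalf⟩)
  have e1 : dist (b x₀ y ⟨1 / 2, hhalf⟩) x₀ = 1 / 2 * dist x₀ y := by
    have := hb.speed x₀ y ⟨1 / 2, hhalf⟩ 0
    rw [hb.zero] at this
    rw [this]
    norm_num
  have e2 : dist (b x₀ y ⟨1 / 2, hhalf⟩) y = 1 / 2 * dist x₀ y := by
    have := hb.speed x₀ y ⟨1 / 2, hhalf⟩ 1
    rw [hb.one] at this
    rw [this]
    norm_num
  have d1 := abs_le.1 (hfd (b x₀ y ⟨1 / 2, hhalf⟩) x₀)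
  have d2 := abs_le.1 (hfd (b x₀ y ⟨1 / 2, hhalf⟩) y)
  have d3 := abs_le.1 (hfd x₀ y)
  rw [e1] at d1
  rw [e2] at d2
  exact ⟨f x₀, f (b x₀ y ⟨1 / 2, hhalf⟩), f y, hf, by linarith [d1.1], by linarith [d2.1],
    by linarith [d1.2, d2.2, d3.1]⟩

theorem empty_of_compact [CompactSpace X] (b : X → X → unitInterval → X) :
    IsEmpty (Boundary b) := by
  refine ⟨fun q => ?_⟩
  induction q using Quotient.inductionOn' with
  | h ξ =>
    obtain ⟨C, hC⟩ := (isCompact_univ (X := X)).isBounded.subset_closedBall (ξ.1 0)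
    have h1 : dist (ξ.1 (Real.toNNReal (|C| + 1))) (ξ.1 0) ≤ C := hC (mem_univ _)
    rw [ξ.2.1] at h1
    rw [Real.coe_toNNReal _ (by positivity)] at h1
    simp only [NNReal.coe_zero, sub_zero] at h1
    rw [abs_of_nonneg (by positivity)] at h1
    linarith [le_abs_self C]

/-- Let `X` be a proper metric space with a consistent conical geodesic bicombing `b`. (1) `X` has
two antipodal `b`-rays if and only if there are almost aligned triples whose middle points stay
bounded while the outer points go to infinity, and then `∂_b X` has at least two points. (2) If `X`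
is coarsely homogeneous, then either `X` is compact and `∂_b X` is empty, or `X` is noncompact, has
antipodal `b`-rays, and `∂_b X` has at least two points. (3) The alternative of (2) holds if some
group acts cocompactly on `X` by isometries (Question 1). -/
theorem result {X : Type u} [MetricSpace X] [ProperSpace X] (b : X → X → unitInterval → X)
    (hb : IsCCCBicombing b) :
    ((LongTriples X ↔ HasAntipodalRays b) ∧ (HasAntipodalRays b → Nontrivial (Boundary b))) ∧
    (CoarselyHomogeneous X → (CompactSpace X ∧ IsEmpty (Boundary b)) ∨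
      (NoncompactSpace X ∧ HasAntipodalRays b ∧ Nontrivial (Boundary b))) ∧
    (∀ (G : Type v) [Group G] [MulAction G X] [IsIsometricSMul G X]
      [CompactSpace (MulAction.orbitRel.Quotient G X)],
      (CompactSpace X ∧ IsEmpty (Boundary b)) ∨
        (NoncompactSpace X ∧ HasAntipodalRays b ∧ Nontrivial (Boundary b))) := by
  have h2 : CoarselyHomogeneous X → (CompactSpace X ∧ IsEmpty (Boundary b)) ∨
      (NoncompactSpace X ∧ HasAntipodalRays b ∧ Nontrivial (Boundary b)) := by
    intro h
    by_cases hX : CompactSpace X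
    · exact Or.inl ⟨hX, empty_of_compact b⟩
    · have h3 := antipodal_of_triples hb (triples_of_homogeneous hb h hX)
      exact Or.inr ⟨not_compactSpace_iff.1 hX, h3, nontrivial_of_antipodal h3⟩
  refine ⟨⟨⟨antipodal_of_triples hb, triples_of_antipodal⟩, nontrivial_of_antipodal⟩, h2, ?_⟩
  intro G _ _ _ _
  rcases isEmpty_or_nonempty X with hX | ⟨⟨x₀⟩⟩
  · have : CompactSpace X := inferInstance
    exact Or.inl ⟨this, empty_of_compact b⟩
  · obtain ⟨R, hR⟩ := exists_radius G x₀
    refine h2 ⟨x₀, R, 0, fun x => ?_⟩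
    obtain ⟨g, hg⟩ := hR x
    exact ⟨fun y => g • y, hg, fun y z => by rw [dist_smul, sub_self, abs_zero]⟩

end Pool.Agent.Results.MP_1cfa3b_gt.AntipodalRays
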