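import Pool.Agent.Y449.TE.CARD
import Pool.Agent.Y449.TE.TWO
import Pool.Agent.Y449.TE.THREEI
import Pool.Agent.Y449.TE.UNIQ
import Pool.Agent.Y449.TE.EQUIV
import Pool.Agent.Y449.TE.DIR
import Pool.Agent.Y449.TE.SEPI

/-!
# Boundaries of cocompact ccc-bicombable spaces: none, two or continuum many points

Authors: helper43 (equivalent rays from a point coincide; rays in a class from every point; limits
of directions and crossed balls), helper903 (separation of rays by balls), helper449 (strategy,
isolated rays, translated rays, cardinality, rough lines, assembly).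
-/

set_option autoImplicit false

namespace Pool.Agent.Results.MP_1cfa3b_gt.Trichotomy

open Set Filter Topology Metric
open scoped NNReal
open Pool.Agent.Results.MP_1cfa3b_gt.TwoEnds
open Pool.Agent.Y449.TE

universe u v

/-- Let `X` be a proper metric space with a consistent conical geodesic bicombing `b`, and suppose
that some group acts cocompactly on `X` by isometries. Then exactly one of the following holds:

* `X` is compact and `∂_b X` is empty;
* `X` is noncompact, `∂_b X` has exactly two points, and `X` is a rough line: there are a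
  1-Lipschitz map `f : ℝ → X` and a constant `D` with `|s - t| - D ≤ d(f s, f t)` for all `s, t`
  such that every point of `X` is at distance at most `D` from the image of `f`;
* `X` is noncompact and `∂_b X` has the cardinality of the continuum. -/
theorem result {X : Type u} [MetricSpace X] [ProperSpace X] (b : X → X → unitInterval → X)
    (hb : IsCCCBicombing b) (G : Type v) [Group G] [MulAction G X] [IsIsometricSMul G X]
    [CompactSpace (MulAction.orbitRel.Quotient G X)] :
    (CompactSpace X ∧ Cardinal.mk (Boundary b) = 0) ∨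
    (NoncompactSpace X ∧ Cardinal.mk (Boundary b) = 2 ∧
      ∃ (D : ℝ) (f : ℝ → X), (∀ s t : ℝ, dist (f s) (f t) ≤ |s - t|) ∧
        (∀ s t : ℝ, |s - t| - D ≤ dist (f s) (f t)) ∧ ∀ x : X, ∃ t : ℝ, dist x (f t) ≤ D) ∨
    (NoncompactSpace X ∧ Cardinal.mk (Boundary b) = Cardinal.continuum.{u}) := by
  rcases CARD.main UNIQ.main EQUIV.main ISO2.main (THREEI.main SEPI.main DIR.main) CONT.main
    X b hb G with ⟨h1, h2⟩ | ⟨h1, h2 | h2⟩
  · exact Or.inl ⟨h1, Cardinal.mk_eq_zero_iff.2 h2⟩
  · refine Or.inr (Or.inl ⟨h1, ?_, ?_⟩)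
    · have hfin : Finite (Boundary b) := Nat.finite_of_card_ne_zero (by rw [h2]; norm_num)
      rw [← Nat.cast_card, h2]
      norm_num
    · -- the two rays
      have hfin : Finite (Boundary b) := Nat.finite_of_card_ne_zero (by rw [h2]; norm_num)
      obtain ⟨o⟩ : Nonempty X := by
        obtain ⟨q⟩ : Nonempty (Boundary b) := (Nat.card_pos_iff.1 (by rw [h2]; norm_num)).1
        obtain ⟨ξ, -⟩ := Quotient.exists_rep q
        exact ⟨ξ.1 0⟩
      obtain ⟨g, hg⟩ := CARD.bij UNIQ.main EQUIV.main b hb o
      have hcard : Nat.card {ξ : ℝ≥0 → X // IsRay b ξ ∧ ξ 0 = o} = 2 := by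
        rw [← h2]
        exact Nat.card_eq_of_bijective g hg
      obtain ⟨ξ, η, hne, huniv⟩ := Nat.card_eq_two_iff.1 hcard
      refine TWO.main SEPI.main DIR.main b hb G o ξ.1 η.1 ξ.2.1 ξ.2.2 η.2.1 η.2.2
        (fun h => hne (Subtype.ext h)) (fun ζ hζ hζ0 => ?_)
      have h3 : (⟨ζ, hζ, hζ0⟩ : {ξ : ℝ≥0 → X // IsRay b ξ ∧ ξ 0 = o}) ∈
          ({ξ, η} : Set {ξ : ℝ≥0 → X // IsRay b ξ ∧ ξ 0 = o}) := by
        rw [huniv]; exact mem_univ _
      rcases h3 with h4 | h4
      · exact Or.inl (congrArg Subtype.val h4)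
      · exact Or.inr (congrArg Subtype.val h4)
  · exact Or.inr (Or.inr ⟨h1, h2⟩)

end Pool.Agent.Results.MP_1cfa3b_gt.Trichotomy
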